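import Pool.Agent.Helper42.DB.Goals3

set_option autoImplicit false

/-!
Packet MAIN2: the exponential growth rate of the periodic orbits of a system.
-/

namespace Pool.Agent.Helper42.DB.PkMAIN2

open Set Filter Topology

lemma cnt_mono {α : Type} [Finite α] (n : ℕ) {P Q : (ℕ → α) → Prop} (h : ∀ w, P w → Q w) :
    cnt n P ≤ cnt n Q := by
  unfold cnt
  apply Set.ncard_le_ncard
  · exact Set.image_mono (fun w hw => h w hw)
  · exact Set.toFinite _

lemma cnt_eq_zero {α : Type} [Finite α] {n : ℕ} {P : (ℕ → α) → Prop} :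
    cnt n P = 0 ↔ ∀ w, ¬P w := by
  unfold cnt
  rw [Set.ncard_eq_zero (Set.toFinite _), Set.image_eq_empty, Set.eq_empty_iff_forall_notMem]
  exact Iff.rfl

variable {S : Sys}

/-- The language of the system. -/
def lang (S : Sys) : Lang S.ι where
  P n w := PW S n w
  loc n w w' h hP := by
    obtain ⟨z, hz⟩ := hP
    exact ⟨z, hz.congr h⟩
  sub n s m w h hP := hP.shift h

lemma lang_A (n : ℕ) : (lang S).A n = AW S n := rfl

lemma sing_congr (a : ℕ) (w w' : ℕ → S.ι) (h : ∀ k ≤ 2 * a + 1, w k = w' k)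
    (hw : Sing S a w) : Sing S a w' := by
  intro δ hδ
  obtain ⟨z, hz, hn⟩ := hw δ hδ
  exact ⟨z, hz.congr h, hn⟩

lemma lp_congr {i : S.ι} {uc φc r ω : ℝ} {ℓ : ℕ} {w w' : ℕ → S.ι} (h : ∀ k ≤ ℓ, w k = w' k)
    (hL : Lp S i uc φc r ω ℓ w) : Lp S i uc φc r ω ℓ w' where
  pos := hL.pos
  w0 := by rw [← h 0 (Nat.zero_le _)]; exact hL.w0
  wl := by rw [← h ℓ le_rfl]; exact hL.wl
  full := by
    intro x hx y hy
    obtain ⟨m, hm, h1, h2⟩ := hL.full x hx y hy
    exact ⟨m, hm.congr h, h1, h2⟩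
  dirL := fun m hm => hL.dirL m (hm.congr fun k hk => (h k hk).symm)
  dirR := fun m hm => hL.dirR m (hm.congr fun k hk => (h k hk).symm)

lemma porb_pw {O : Set (St S)} (hO : POrb S O) (n : ℕ) : ∃ w, PW S n w := by
  obtain ⟨z, p, -, hz, -, -⟩ := hO
  exact ⟨fun k => (z k).i, z, ⟨fun k _ => (hz k).1, fun k _ => hz k⟩, fun k _ => rfl⟩

/-- The good times. -/
noncomputable def good (S : Sys) (τ N : ℕ) (W : ℕ → S.ι) : Finset ℕ := by
  classical
  exact (Finset.range (N + 1)).filter (fun t => Good S τ N W t)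

lemma mem_good {τ N : ℕ} {W : ℕ → S.ι} {t : ℕ} : t ∈ good S τ N W ↔ t ≤ N ∧ Good S τ N W t := by
  classical
  unfold good
  rw [Finset.mem_filter, Finset.mem_range]
  constructor
  · rintro ⟨h1, h2⟩
    exact ⟨by omega, h2⟩
  · rintro ⟨h1, h2⟩
    exact ⟨by omega, h2⟩

lemma card_good (τ N : ℕ) (W : ℕ → S.ι) (hN : 40 * (2 * τ + 1) ≤ N)
    (hb : 10 * badc (Sing S) τ N W ≤ N) : 7 * N ≤ 8 * (good S τ N W).card := by
  classical
  set B : Set ℕ := {t : ℕ | ∃ a k : ℕ, τ ≤ a ∧ k + 2 * a + 1 ≤ N ∧ Sing S a (sh k W) ∧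
    k ≤ t ∧ t ≤ k + 2 * a + 1} with hB
  have hBf : B.Finite := by
    apply (Set.finite_Iic N).subset
    rintro t ⟨a, k, -, h1, -, -, h2⟩
    exact h2.trans (by omega)
  have hbc : badc (Sing S) τ N W = hBf.toFinset.card := by
    rw [← Set.ncard_eq_toFinset_card B hBf]
    rfl
  have hsub : Finset.Icc (τ + 1) (N - τ - 1) \ hBf.toFinset ⊆ good S τ N W := by
    intro t ht
    rw [Finset.mem_sdiff, Finset.mem_Icc, Set.Finite.mem_toFinset] at ht
    rw [mem_good]
    refine ⟨by omega, by omega, by omega, ?_⟩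
    intro a k h1 h2 h3 h4
    exact ht.2 ⟨a, k, h1, h2, h3, h4.1, h4.2⟩
  have h1 := Finset.card_le_card hsub
  have h2 := Finset.le_card_sdiff hBf.toFinset (Finset.Icc (τ + 1) (N - τ - 1))
  rw [Nat.card_Icc] at h2
  omega

/-- The main construction: many loops which can be glued. -/
lemma exists_loops (hA : G_ARC S) (hT : G_TYP) (hP : G_PIG) (hC : G_COUNT S) (hL : G_LOOPLP S)
    {h : ℝ} (hh : 0 < h) (hR : (lang S).Rate h) {ε : ℝ} (hε : 0 < ε) :
    ∃ (i : S.ι) (uc φc r ω : ℝ) (ℓ : ℕ), 1 ≤ ℓ ∧ 0 < r ∧ |φc| < Real.pi / 2 ∧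
      Icc (uc - r) (uc + r) ⊆ Ioo (S.a i) (S.b i) ∧ 0 ≤ ω ∧
      ω < Real.cos φc * S.κ * S.r0 * r / 2 ∧
      Real.exp ((h - ε) * ℓ) ≤ cnt ℓ (Lp S i uc φc r ω ℓ) := by
  classical
  obtain ⟨C, hC⟩ := hC
  obtain ⟨τ, N0, hτ⟩ := hT S.ι (lang S) (Sing S) h C hh hR sing_congr hC
  obtain ⟨r, ξ, M, hr, hξ, hLp⟩ := hL τ
  -- there is a word, hence a state
  have hpos : 0 < (lang S).A 0 := by
    have h1 := hR.1 0
    have h2 : (0 : ℝ) < (lang S).A 0 := lt_of_lt_of_le (Real.exp_pos _) h1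
    exact_mod_cast h2
  obtain ⟨w00, z00, hz00⟩ : ∃ w, PW S 0 w := by
    by_contra hcon
    push Not at hcon
    have : (lang S).A 0 = 0 := cnt_eq_zero.2 hcon
    omega
  have : Nonempty (ℕ → St S) := ⟨z00⟩
  -- bounds for the parameters
  obtain ⟨A0, hA0⟩ : ∃ A0 : ℝ, ∀ i, A0 ≤ S.a i := by
    obtain ⟨m, hm⟩ := (Set.finite_range S.a).bddBelow
    exact ⟨m, fun i => hm ⟨i, rfl⟩⟩
  obtain ⟨B0, hB0⟩ : ∃ B0 : ℝ, ∀ i, S.b i ≤ B0 := by
    obtain ⟨m, hm⟩ := (Set.finite_range S.b).bddAbove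
    exact ⟨m, fun i => hm ⟨i, rfl⟩⟩
  obtain ⟨T, -, hTf, hTc⟩ := ((isCompact_Icc (a := A0) (b := B0)).prod
    (isCompact_Icc (a := -(Real.pi / 2)) (b := Real.pi / 2))).finite_cover_balls hξ
  have hcov : ∀ x : St S, x.Ok → ∃ c ∈ T, |x.u - c.1| < ξ ∧ |x.φ - c.2| < ξ := by
    intro x hx
    have hx1 := hx.1
    have hx2 := abs_lt.1 hx.2
    have hmem : (x.u, x.φ) ∈ Icc A0 B0 ×ˢ Icc (-(Real.pi / 2)) (Real.pi / 2) := by
      refine ⟨⟨(hA0 x.i).trans hx1.1.le, hx1.2.le.trans (hB0 x.i)⟩, hx2.1.le, hx2.2.le⟩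
    have hm := hTc hmem
    rw [Set.mem_iUnion₂] at hm
    obtain ⟨c, hc, hd⟩ := hm
    rw [Metric.mem_ball, Prod.dist_eq, max_lt_iff, Real.dist_eq, Real.dist_eq] at hd
    exact ⟨c, hc, hd⟩
  obtain ⟨c00, hc00, -⟩ := hcov (z00 0) (hz00.1.1 0 le_rfl)
  let ctr : St S → T := fun x =>
    if hx : ∃ c ∈ T, |x.u - c.1| < ξ ∧ |x.φ - c.2| < ξ then ⟨hx.choose, hx.choose_spec.1⟩
    else ⟨c00, hc00⟩
  have hctr : ∀ x : St S, x.Ok → |x.u - (ctr x).1.1| < ξ ∧ |x.φ - (ctr x).1.2| < ξ := by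
    intro x hx
    have hx' := hcov x hx
    simp only [ctr, hx', ↓reduceDIte]
    exact hx'.choose_spec.2
  let _ : Fintype T := hTf.fintype
  let e : S.ι × T ≃ Fin (Fintype.card (S.ι × T)) := Fintype.equivFin _
  let Zc : ℕ → (ℕ → S.ι) → ℕ → St S := fun N W => Classical.epsilon (fun z => Cyl N W z)
  have hZc : ∀ N W, PW S N W → Cyl N W (Zc N W) := fun N W hW => Classical.epsilon_spec hW
  let cls : ℕ → (ℕ → S.ι) → ℕ → Fin (Fintype.card (S.ι × T)) := fun N W t =>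
    e ((Zc N W t).i, ctr (Zc N W t))
  have hcard : ∃ N0 : ℕ, ∀ N ≥ N0, (lang S).A N ≤
      2 * cnt N (fun W => (lang S).P N W ∧ 7 * N ≤ 8 * (good S τ N W).card) := by
    refine ⟨max N0 (40 * (2 * τ + 1)), fun N hN => ?_⟩
    refine (hτ N (le_trans (le_max_left _ _) hN)).trans ?_
    apply Nat.mul_le_mul_left
    apply cnt_mono
    rintro W ⟨h1, h2⟩
    exact ⟨h1, card_good τ N W (le_trans (le_max_right _ _) hN) h2⟩
  obtain ⟨ℓ, hℓ, c, hc⟩ := hP S.ι (lang S) h (Fintype.card (S.ι × T)) (good S τ) cls hh hR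
    (fun N W t ht => (mem_good.1 ht).1) hcard ε hε M 1
  obtain ⟨⟨i, cc⟩, hic⟩ : ∃ p, e p = c := ⟨e.symm c, e.apply_symm_apply c⟩
  have key : ∀ v : ℕ → S.ι, (∃ (N : ℕ) (W : ℕ → S.ι) (t : ℕ), (lang S).P N W ∧
      t ∈ good S τ N W ∧ t + ℓ ∈ good S τ N W ∧ cls N W t = c ∧ cls N W (t + ℓ) = c ∧
      (∃ F : Finset ℕ, F ⊆ good S τ N W ∧ M ≤ F.card ∧ ∀ s ∈ F, t < s ∧ s < t + ℓ) ∧
      ∀ k ≤ ℓ, v k = W (t + k)) →
      |cc.1.2| < Real.pi / 2 ∧ Icc (cc.1.1 - r) (cc.1.1 + r) ⊆ Ioo (S.a i) (S.b i) ∧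
      Lp S i cc.1.1 cc.1.2 r (Real.cos cc.1.2 * S.κ * S.r0 * r / 4) ℓ v := by
    rintro v ⟨N, W, t, hW, ht, ht', hc1, hc2, ⟨F, hF1, hF2, hF3⟩, hv⟩
    rw [mem_good] at ht ht'
    have hz := hZc N W hW
    have e1 := e.injective (hc1.trans hic.symm)
    have e2 := e.injective (hc2.trans hic.symm)
    have ok1 := hz.1.1 t ht.1
    have ok2 := hz.1.1 (t + ℓ) ht'.1
    have c1 := hctr _ ok1
    have c2 := hctr _ ok2
    have e1a : (Zc N W t).i = i := congrArg Prod.fst e1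
    have e1b : ctr (Zc N W t) = cc := congrArg Prod.snd e1
    have e2a : (Zc N W (t + ℓ)).i = i := congrArg Prod.fst e2
    have e2b : ctr (Zc N W (t + ℓ)) = cc := congrArg Prod.snd e2
    rw [e1b] at c1
    rw [e2b] at c2
    have hM : M ≤ Set.ncard {s : ℕ | t < s ∧ s < t + ℓ ∧ Good S τ N W s} := by
      refine hF2.trans ?_
      rw [← Set.ncard_coe_finset]
      apply Set.ncard_le_ncard
      · intro s hs
        have hs' := hF3 s hs
        exact ⟨hs'.1, hs'.2, (mem_good.1 (hF1 hs)).2⟩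
      · exact (Set.finite_Iio (t + ℓ)).subset (fun s hs => hs.2.1)
    obtain ⟨g1, g2, g3⟩ := hLp N W (Zc N W) t ℓ i cc.1.1 cc.1.2 hz ht.2 ht'.2 e1a e2a c1.1.le
      c1.2.le c2.1.le c2.2.le hM (by omega)
    refine ⟨g1, g2, lp_congr (fun k hk => ?_) g3⟩
    rw [hv k hk]
    rfl
  have hcpos : 0 < cnt ℓ (fun v : ℕ → S.ι => ∃ (N : ℕ) (W : ℕ → S.ι) (t : ℕ), (lang S).P N W ∧
      t ∈ good S τ N W ∧ t + ℓ ∈ good S τ N W ∧ cls N W t = c ∧ cls N W (t + ℓ) = c ∧
      (∃ F : Finset ℕ, F ⊆ good S τ N W ∧ M ≤ F.card ∧ ∀ s ∈ F, t < s ∧ s < t + ℓ) ∧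
      ∀ k ≤ ℓ, v k = W (t + k)) := by
    have h2 := lt_of_lt_of_le (Real.exp_pos _) hc
    exact_mod_cast h2
  obtain ⟨v0, hv0⟩ : ∃ v : ℕ → S.ι, ∃ (N : ℕ) (W : ℕ → S.ι) (t : ℕ), (lang S).P N W ∧
      t ∈ good S τ N W ∧ t + ℓ ∈ good S τ N W ∧ cls N W t = c ∧ cls N W (t + ℓ) = c ∧
      (∃ F : Finset ℕ, F ⊆ good S τ N W ∧ M ≤ F.card ∧ ∀ s ∈ F, t < s ∧ s < t + ℓ) ∧
      ∀ k ≤ ℓ, v k = W (t + k) := by
    by_contra hcon
    refine hcpos.ne' (cnt_eq_zero.2 fun w hw => hcon ?_)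
    exact ⟨w, hw⟩
  obtain ⟨g1, g2, -⟩ := key v0 hv0
  have hcos : 0 < Real.cos cc.1.2 :=
    Real.cos_pos_of_mem_Ioo ⟨by have := (abs_lt.mp g1).1; linarith, (abs_lt.mp g1).2⟩
  have hκ : 0 < S.κ := (hA i).1
  have hprod : 0 < Real.cos cc.1.2 * S.κ * S.r0 * r :=
    mul_pos (mul_pos (mul_pos hcos hκ) S.r0_pos) hr
  refine ⟨i, cc.1.1, cc.1.2, r, Real.cos cc.1.2 * S.κ * S.r0 * r / 4, ℓ, hℓ, hr, g1, g2,
    by positivity, by linarith, hc.trans ?_⟩
  have := cnt_mono (α := S.ι) ℓ (fun v hv => (key v hv).2.2)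
  exact_mod_cast this

lemma fS_mono (hU : G_UPB S) {m n : ℕ} (hmn : m ≤ n) : fS S m ≤ fS S n := by
  unfold fS
  apply Set.ncard_le_ncard
  · rintro O ⟨h1, h2⟩
    exact ⟨h1, h2.trans hmn⟩
  · exact (hU n).1

/-- The lower bound. -/
lemma lower (hU : G_UPB S) (hLow : G_LOW S) {g : ℝ} (hg : 0 < g) {i : S.ι} {uc φc r ω : ℝ}
    {ℓ : ℕ} (hℓ : 1 ≤ ℓ) (hr : 0 < r) (hφ : |φc| < Real.pi / 2)
    (hI : Icc (uc - r) (uc + r) ⊆ Ioo (S.a i) (S.b i)) (hω : 0 ≤ ω)
    (hω' : ω < Real.cos φc * S.κ * S.r0 * r / 2)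
    (hΛ : Real.exp (g * ℓ) ≤ cnt ℓ (Lp S i uc φc r ω ℓ)) {n : ℕ} (hn : 2 * ℓ ≤ n) :
    g * ((n : ℝ) - ℓ) - Real.log n ≤ Real.log (fS S n) := by
  set m := n / ℓ with hm
  have hm2 : 2 ≤ m := by
    rw [hm, Nat.le_div_iff_mul_le (by omega)]
    exact hn
  have hml : m * ℓ ≤ n := Nat.div_mul_le_self n ℓ
  have hml' : n < m * ℓ + ℓ := by
    have := Nat.lt_div_mul_add (a := n) (b := ℓ) (by omega)
    exact this
  have h1 := hLow i uc φc r ω ℓ m hm2 hr hφ hI hω hω'
  have h2 : (cnt ℓ (Lp S i uc φc r ω ℓ)) ^ m ≤ n * fS S n :=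
    h1.trans (Nat.mul_le_mul hml (fS_mono hU hml))
  have h3 : Real.exp (g * (m * ℓ)) ≤ (n : ℝ) * fS S n := by
    have h4 : Real.exp (g * (m * ℓ)) = Real.exp (g * ℓ) ^ m := by
      rw [← Real.exp_nat_mul]
      ring_nf
    rw [h4]
    calc Real.exp (g * ℓ) ^ m ≤ ((cnt ℓ (Lp S i uc φc r ω ℓ) : ℕ) : ℝ) ^ m :=
          pow_le_pow_left₀ (Real.exp_pos _).le hΛ m
      _ ≤ (n : ℝ) * fS S n := by exact_mod_cast h2
  have hn0 : (0 : ℝ) < n := by
    have : 0 < n := by omega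
    exact_mod_cast this
  have hprod : 0 < (n : ℝ) * fS S n := lt_of_lt_of_le (Real.exp_pos _) h3
  have hf0 : (0 : ℝ) < fS S n := by
    by_contra hcon
    have : (n : ℝ) * fS S n ≤ 0 := mul_nonpos_of_nonneg_of_nonpos hn0.le (not_lt.1 hcon)
    linarith
  have h5 : g * (m * ℓ) ≤ Real.log n + Real.log (fS S n) := by
    rw [← Real.log_mul hn0.ne' hf0.ne']
    rw [Real.le_log_iff_exp_le hprod]
    exact h3
  have h6 : (n : ℝ) - ℓ ≤ m * ℓ := by
    have : (n : ℝ) < m * ℓ + ℓ := by exact_mod_cast hml'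
    linarith
  have h7 : g * ((n : ℝ) - ℓ) ≤ g * (m * ℓ) := mul_le_mul_of_nonneg_left h6 hg.le
  linarith

lemma tendsto_log_div : Tendsto (fun n : ℕ => Real.log n / n) atTop (𝓝 0) := by
  have h1 : Tendsto (fun x : ℝ => Real.log x / x) atTop (𝓝 0) := by
    have h2 := Real.isLittleO_log_id_atTop
    exact h2.tendsto_div_nhds_zero
  exact h1.comp tendsto_natCast_atTop_atTop

lemma log_succ_le {n : ℕ} (hn : 1 ≤ n) : Real.log ((n : ℝ) + 1) ≤ Real.log 2 + Real.log n := by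
  have hn' : (1 : ℝ) ≤ n := by exact_mod_cast hn
  rw [← Real.log_mul (by norm_num) (by positivity)]
  apply Real.log_le_log (by positivity)
  linarith

theorem thm (S : Sys) : G_ARC S → G_FLB S → G_CUP → G_FEK → G_TYP → G_PIG → G_COUNT S →
    G_LOOPLP S → G_UPB S → G_LOW S → G_MAIN2 S := by
  intro hA _ _ hF hT hP hC hL hU hLow
  by_cases hz : ∃ n0, AW S n0 = 0
  · -- no long words
    obtain ⟨n0, hn0⟩ := hz
    have hno : ∀ w, ¬PW S n0 w := cnt_eq_zero.1 hn0
    have hf : ∀ n, fS S n = 0 := by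
      intro n
      unfold fS
      rw [Set.ncard_eq_zero (hU n).1, Set.eq_empty_iff_forall_notMem]
      rintro O ⟨hO, -⟩
      obtain ⟨w, hw⟩ := porb_pw hO n0
      exact hno w hw
    refine ⟨0, le_rfl, ?_, ?_⟩
    · have : (fun n : ℕ => Real.log (fS S n) / n) = fun _ => 0 := by
        funext n
        rw [hf n]
        simp
      rw [this]
      exact tendsto_const_nhds
    · intro ζ hζ
      refine ⟨1 + ∑ k ∈ Finset.range n0, (AW S k : ℝ), ?_, ?_⟩
      · have : 0 ≤ ∑ k ∈ Finset.range n0, (AW S k : ℝ) :=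
          Finset.sum_nonneg fun k _ => Nat.cast_nonneg _
        linarith
      · intro n
        have hs : 0 ≤ ∑ k ∈ Finset.range n0, (AW S k : ℝ) :=
          Finset.sum_nonneg fun k _ => Nat.cast_nonneg _
        have hexp : 1 ≤ Real.exp ((0 + ζ) * n) := by
          apply Real.one_le_exp
          positivity
        have h1 : (AW S n : ℝ) ≤ 1 + ∑ k ∈ Finset.range n0, (AW S k : ℝ) := by
          by_cases hn : n < n0
          · have := Finset.single_le_sum (f := fun k => (AW S k : ℝ))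
              (fun k _ => Nat.cast_nonneg _) (Finset.mem_range.2 hn)
            linarith
          · have : AW S n = 0 := by
              apply cnt_eq_zero.2
              intro w hw
              apply hno w
              obtain ⟨z, hz⟩ := hw
              exact ⟨z, hz.mono (by omega)⟩
            rw [this]
            push_cast
            linarith
        calc (AW S n : ℝ) ≤ 1 + ∑ k ∈ Finset.range n0, (AW S k : ℝ) := h1
          _ = (1 + ∑ k ∈ Finset.range n0, (AW S k : ℝ)) * 1 := by ring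
          _ ≤ _ := mul_le_mul_of_nonneg_left hexp (by linarith)
  · have hpos : ∀ n, 0 < (lang S).A n := by
      intro n
      rw [Nat.pos_iff_ne_zero]
      intro h0
      exact hz ⟨n, h0⟩
    obtain ⟨h, hh, hR⟩ := hF S.ι (lang S) hpos
    refine ⟨h, hh, ?_, hR.2⟩
    rw [Metric.tendsto_atTop]
    intro ε hε
    -- upper bound
    obtain ⟨K, hK1, hK⟩ := hR.2 (ε / 4) (by positivity)
    have hK0 : 0 < K := by linarith
    have hup : ∀ n : ℕ, 1 ≤ n → Real.log (fS S n) ≤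
        Real.log 2 + Real.log n + Real.log K + (h + ε / 4) * n := by
      intro n hn
      have hn' : (1 : ℝ) ≤ n := by exact_mod_cast hn
      have hnn : 0 ≤ Real.log 2 + Real.log n + Real.log K + (h + ε / 4) * n := by
        have h1 := Real.log_nonneg (by norm_num : (1 : ℝ) ≤ 2)
        have h2 := Real.log_nonneg hn'
        have h3 := Real.log_nonneg hK1
        have h4 : 0 ≤ (h + ε / 4) * n := by positivity
        linarith
      by_cases hf : fS S n = 0
      · rw [hf]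
        simpa using hnn
      · have hfpos : (0 : ℝ) < fS S n := by exact_mod_cast Nat.pos_of_ne_zero hf
        have h1 : (fS S n : ℝ) ≤ ∑ k ∈ Finset.range (n + 1), (AW S k : ℝ) := by
          exact_mod_cast (hU n).2
        have h2 : ∑ k ∈ Finset.range (n + 1), (AW S k : ℝ) ≤
            ((n : ℝ) + 1) * (K * Real.exp ((h + ε / 4) * n)) := by
          have h3 : ∀ k ∈ Finset.range (n + 1), (AW S k : ℝ) ≤
              K * Real.exp ((h + ε / 4) * n) := by
            intro k hk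
            refine (hK k).trans ?_
            apply mul_le_mul_of_nonneg_left _ hK0.le
            apply Real.exp_le_exp.2
            apply mul_le_mul_of_nonneg_left _ (by positivity)
            have : k ≤ n := by
              have := Finset.mem_range.1 hk
              omega
            exact_mod_cast this
          refine (Finset.sum_le_card_nsmul _ _ _ h3).trans ?_
          rw [Finset.card_range, nsmul_eq_mul]
          push_cast
          exact le_rfl
        have h4 := Real.log_le_log hfpos (h1.trans h2)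
        rw [Real.log_mul (by positivity) (by positivity), Real.log_mul hK0.ne'
          (Real.exp_pos _).ne', Real.log_exp] at h4
        have h5 := log_succ_le hn
        linarith
    -- lower bound
    have hlow : ∃ (c : ℝ) (n1 : ℕ), ∀ n ≥ n1, (h - ε / 2) * n - c - Real.log n ≤
        Real.log (fS S n) := by
      by_cases hhε : h - ε / 4 ≤ 0
      · refine ⟨0, 1, fun n hn => ?_⟩
        have hn' : (1 : ℝ) ≤ n := by exact_mod_cast hn
        have h1 := Real.log_nonneg hn'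
        have h2 : 0 ≤ Real.log (fS S n) := Real.log_natCast_nonneg _
        have h3 : (h - ε / 2) * n ≤ 0 :=
          mul_nonpos_of_nonpos_of_nonneg (by linarith) (by linarith)
        linarith
      · push Not at hhε
        have hh0 : 0 < h := by linarith
        obtain ⟨i, uc, φc, r, ω, ℓ, hℓ, hr, hφ, hI, hω, hω', hΛ⟩ :=
          exists_loops hA hT hP hC hL hh0 hR (ε := ε / 4) (by positivity)
        refine ⟨(h - ε / 4) * ℓ, 2 * ℓ, fun n hn => ?_⟩
        have h1 := lower hU hLow hhε hℓ hr hφ hI hω hω' hΛ hn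
        have h2 : (h - ε / 2) * n ≤ (h - ε / 4) * n :=
          mul_le_mul_of_nonneg_right (by linarith) (Nat.cast_nonneg _)
        linarith
    obtain ⟨c, n1, hlow⟩ := hlow
    -- conclusion
    have hlog : ∀ᶠ n : ℕ in atTop, |Real.log n / n| < ε / 8 := by
      have := (Metric.tendsto_atTop.1 tendsto_log_div) (ε / 8) (by positivity)
      obtain ⟨n2, hn2⟩ := this
      filter_upwards [eventually_ge_atTop n2] with n hn
      have := hn2 n hn
      rwa [Real.dist_eq, sub_zero] at this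
    have hcc : ∀ᶠ n : ℕ in atTop, (|c| + Real.log 2 + Real.log K) / n < ε / 8 := by
      have h1 : Tendsto (fun n : ℕ => (|c| + Real.log 2 + Real.log K) / (n : ℝ)) atTop (𝓝 0) :=
        tendsto_const_div_atTop_nhds_zero_nat _
      exact h1.eventually_lt_const (by positivity)
    have hall : ∀ᶠ n : ℕ in atTop, dist (Real.log (fS S n) / n) h < ε := by
      filter_upwards [hlog, hcc, eventually_ge_atTop (max 1 n1)] with n h1 h2 h3
      have hn1 : 1 ≤ n := (le_max_left _ _).trans h3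
      have hn0 : (0 : ℝ) < n := by exact_mod_cast hn1
      have hu := hup n hn1
      have hl := hlow n ((le_max_right _ _).trans h3)
      have hlogn : 0 ≤ Real.log n := Real.log_nonneg (by exact_mod_cast hn1)
      rw [abs_lt] at h1
      have h1' : Real.log n < ε / 8 * n := by
        have := h1.2
        rwa [div_lt_iff₀ hn0] at this
      have h2' : |c| + Real.log 2 + Real.log K < ε / 8 * n := by
        rwa [div_lt_iff₀ hn0] at h2
      have hc' := le_abs_self c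
      have hca := abs_nonneg c
      have hl2 := Real.log_nonneg (by norm_num : (1 : ℝ) ≤ 2)
      have hlK := Real.log_nonneg hK1
      rw [Real.dist_eq, abs_lt]
      constructor
      · have h8 : h - ε < Real.log (fS S n) / n := by
          rw [lt_div_iff₀ hn0]
          have : (h - ε) * n = (h - ε / 2) * n - ε / 2 * n := by ring
          have h9 : 0 < ε * n := by positivity
          nlinarith
        linarith
      · rw [sub_lt_iff_lt_add, div_lt_iff₀ hn0]
        have h9 : 0 < ε * n := by positivity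
        nlinarith
    obtain ⟨n3, hn3⟩ := eventually_atTop.1 hall
    exact ⟨n3, hn3⟩

end Pool.Agent.Helper42.DB.PkMAIN2
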